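import Pool.Agent.DPS.Stmts

namespace Pool.Agent.DPS.H90

open Finset Pool.Agent.DPS

theorem dg_self {n k : ℕ} (f : KS n k → ℝ) (F : KS n k) : dg f F.1 = f F := by
  unfold dg
  rw [Finset.sum_eq_single F]
  · simp
  · intro G _ hG
    rw [if_neg]
    intro hs
    apply hG
    have h2 : F.1 = G.1 := Finset.eq_of_subset_of_card_le hs (by rw [F.2, G.2])
    exact Subtype.ext h2.symm
  · intro h
    exact absurd (Finset.mem_univ F) h

theorem mki : MKIStmt := by
  intro n k f
  funext F
  change ∑ R ∈ Finset.powersetCard k (Finset.univ : Finset (Fin n)),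
    (if R ⊆ F.1 then (1 : ℝ) else 0) * dg f R = f F
  rw [Finset.sum_eq_single F.1]
  · rw [if_pos (Finset.Subset.refl _), one_mul, dg_self]
  · intro R hR hne
    rw [if_neg, zero_mul]
    intro hs
    apply hne
    have hc : R.card = k := (Finset.mem_powersetCard.1 hR).2
    exact Finset.eq_of_subset_of_card_le hs (by rw [F.2, hc])
  · intro h
    exact absurd (Finset.mem_powersetCard.2 ⟨Finset.subset_univ _, F.2⟩) h

end Pool.Agent.DPS.H90
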